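import Mathlib

/-!
# Near-integer distance avoiding sets: definitions
-/

set_option autoImplicit false

namespace Q143.NI

/-- The distance from `t` to the nearest integer. -/
noncomputable def distInt (t : ℝ) : ℝ := |t - round t|

/-- The points `p 0, …, p (n - 1)` of `ℝ ^ d` lie in a closed `N`-ball of radius `X`, and the
`N`-distance of any two of them is at distance at least `δ` from the nearest integer. -/
def Admissible {d : ℕ} (N : Seminorm ℝ (Fin d → ℝ)) (δ X : ℝ) {n : ℕ} (p : Fin n → Fin d → ℝ) :
    Prop :=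
  (∃ c : Fin d → ℝ, ∀ i, N (p i - c) ≤ X) ∧ ∀ i j, i ≠ j → δ ≤ distInt (N (p i - p j))

/-- `N_𝒩(X, δ)`: the largest number of points of an admissible family. -/
noncomputable def maxPoints {d : ℕ} (N : Seminorm ℝ (Fin d → ℝ)) (δ X : ℝ) : ℕ :=
  sSup {n : ℕ | ∃ p : Fin n → Fin d → ℝ, Admissible N δ X p}

end Q143.NI
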