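import Mathlib

/-!
# Near-integer distance avoiding sets: the planar building block

For a base `q` the points `(∑ q^(2l), ∑ q^l)`, summed over the subsets of `{1, …, L}`.
-/

set_option autoImplicit false

namespace Q143.NI

/-- first coordinate: digits `b l` in base `q ^ 2`, positions `1, …, L`. -/
def xc (q : ℕ) (L : ℕ) (b : ℕ → Bool) : ℤ := ∑ l ∈ Finset.range L, if b l then (q : ℤ) ^ (2 * (l + 1)) else 0

/-- second coordinate: digits `b l` in base `q`, positions `1, …, L`. -/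
def yc (q : ℕ) (L : ℕ) (b : ℕ → Bool) : ℤ := ∑ l ∈ Finset.range L, if b l then (q : ℤ) ^ (l + 1) else 0

theorem digit_diff (Q : ℤ) (hQ : 2 ≤ Q) (L : ℕ) (b b' : ℕ → Bool) :
    |(∑ l ∈ Finset.range L, if b l then Q ^ (l + 1) else 0) -
      (∑ l ∈ Finset.range L, if b' l then Q ^ (l + 1) else 0)| * (Q - 1) ≤ Q ^ (L + 1) - Q := by
  induction L with
  | zero => simp
  | succ L ih =>
    rw [Finset.sum_range_succ, Finset.sum_range_succ]
    set u := (∑ l ∈ Finset.range L, if b l then Q ^ (l + 1) else 0) with hu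
    set v := (∑ l ∈ Finset.range L, if b' l then Q ^ (l + 1) else 0) with hv
    have hP : 0 < Q ^ (L + 1) := by positivity
    have h1 : |(u + if b L then Q ^ (L + 1) else 0) - (v + if b' L then Q ^ (L + 1) else 0)| ≤
        |u - v| + Q ^ (L + 1) := by
      have h2 : (u + if b L then Q ^ (L + 1) else 0) - (v + if b' L then Q ^ (L + 1) else 0) =
        (u - v) + ((if b L then Q ^ (L + 1) else 0) - (if b' L then Q ^ (L + 1) else 0)) := by ring
      rw [h2]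
      refine (abs_add_le _ _).trans ?_
      gcongr
      split_ifs <;> simp [abs_of_pos hP, hP.le]
    calc _ ≤ (|u - v| + Q ^ (L + 1)) * (Q - 1) := by
            apply mul_le_mul_of_nonneg_right h1; linarith
      _ = |u - v| * (Q - 1) + Q ^ (L + 1) * (Q - 1) := by ring
      _ ≤ (Q ^ (L + 1) - Q) + Q ^ (L + 1) * (Q - 1) := by gcongr
      _ = Q ^ (L + 1 + 1) - Q := by ring

/-- If two digit strings differ below `L` then there is a common leading scale `l`. -/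
theorem exists_scale (q : ℕ) (hq : 2 ≤ q) (L : ℕ) (b b' : ℕ → Bool) (h : ∃ l < L, b l ≠ b' l) :
    ∃ l : ℕ, 1 ≤ l ∧ l ≤ L ∧
      (|xc q L b - xc q L b'| - (q : ℤ) ^ (2 * l)) * ((q : ℤ) ^ 2 - 1) ≤ (q : ℤ) ^ (2 * l) ∧
      ((q : ℤ) ^ (2 * l) - |xc q L b - xc q L b'|) * ((q : ℤ) ^ 2 - 1) ≤ (q : ℤ) ^ (2 * l) ∧
      (|yc q L b - yc q L b'| - (q : ℤ) ^ l) * ((q : ℤ) - 1) ≤ (q : ℤ) ^ l ∧
      ((q : ℤ) ^ l - |yc q L b - yc q L b'|) * ((q : ℤ) - 1) ≤ (q : ℤ) ^ l := by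
  induction L with
  | zero => obtain ⟨l, hl, _⟩ := h; omega
  | succ L ih =>
    by_cases hL : b L = b' L
    · obtain ⟨l, hl, hne⟩ := h
      have hlL : l < L := by
        rcases Nat.lt_succ_iff_lt_or_eq.1 hl with h | h
        · exact h
        · subst h; exact absurd hL hne
      obtain ⟨m, h1, h2, h3⟩ := ih ⟨l, hlL, hne⟩
      refine ⟨m, h1, by omega, ?_⟩
      have hx : xc q (L + 1) b - xc q (L + 1) b' = xc q L b - xc q L b' := by
        unfold xc
        rw [Finset.sum_range_succ, Finset.sum_range_succ, hL]; ring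
      have hy : yc q (L + 1) b - yc q (L + 1) b' = yc q L b - yc q L b' := by
        unfold yc
        rw [Finset.sum_range_succ, Finset.sum_range_succ, hL]; ring
      rw [hx, hy]; exact h3
    · refine ⟨L + 1, by omega, le_rfl, ?_⟩
      have key : ∀ (Q : ℤ), 2 ≤ Q → ∀ u v : ℤ, |u - v| * (Q - 1) ≤ Q ^ (L + 1) - Q →
          (|(u + if b L then Q ^ (L + 1) else 0) - (v + if b' L then Q ^ (L + 1) else 0)|
            - Q ^ (L + 1)) * (Q - 1) ≤ Q ^ (L + 1) ∧
          (Q ^ (L + 1) - |(u + if b L then Q ^ (L + 1) else 0) -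
            (v + if b' L then Q ^ (L + 1) else 0)|) * (Q - 1) ≤ Q ^ (L + 1) := by
        intro Q hQ u v huv
        have hP : 0 < Q ^ (L + 1) := by positivity
        have h0 : 0 ≤ Q - 1 := by linarith
        have h4 : ∃ s : ℤ, (s = Q ^ (L + 1) ∨ s = - Q ^ (L + 1)) ∧
            (u + if b L then Q ^ (L + 1) else 0) - (v + if b' L then Q ^ (L + 1) else 0) =
            (u - v) + s := by
          rcases hbL : b L with _ | _ <;> rcases hbL' : b' L with _ | _
          · rw [hbL, hbL'] at hL; exact absurd rfl hL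
          · exact ⟨-Q ^ (L + 1), Or.inr rfl, by simp; ring⟩
          · exact ⟨Q ^ (L + 1), Or.inl rfl, by simp; ring⟩
          · rw [hbL, hbL'] at hL; exact absurd rfl hL
        obtain ⟨s, hs, he⟩ := h4
        rw [he]
        have hsa : |s| = Q ^ (L + 1) := by
          rcases hs with hs | hs
          · rw [hs, abs_of_pos hP]
          · rw [hs, abs_neg, abs_of_pos hP]
        have h5 : |u - v + s| ≤ |u - v| + Q ^ (L + 1) := by
          rw [← hsa]; exact abs_add_le _ _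
        have h6 : Q ^ (L + 1) ≤ |u - v + s| + |u - v| := by
          rw [← hsa]
          calc |s| = |(u - v + s) - (u - v)| := by ring_nf
            _ ≤ |u - v + s| + |u - v| := abs_sub _ _
        constructor
        · calc (|u - v + s| - Q ^ (L + 1)) * (Q - 1) ≤ |u - v| * (Q - 1) := by
                apply mul_le_mul_of_nonneg_right _ h0; linarith
            _ ≤ _ := by linarith
        · calc (Q ^ (L + 1) - |u - v + s|) * (Q - 1) ≤ |u - v| * (Q - 1) := by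
                apply mul_le_mul_of_nonneg_right _ h0; linarith
            _ ≤ _ := by linarith
      have hq' : (2 : ℤ) ≤ q := by exact_mod_cast hq
      have hq2 : (2 : ℤ) ≤ (q : ℤ) ^ 2 := by nlinarith
      have hx := key ((q : ℤ) ^ 2) hq2 _ _ (digit_diff ((q : ℤ) ^ 2) hq2 L b b')
      have hy := key (q : ℤ) hq' _ _ (digit_diff (q : ℤ) hq' L b b')
      have ex : ∀ c : ℕ → Bool, xc q (L + 1) c = (∑ l ∈ Finset.range L, if c l then ((q : ℤ) ^ 2) ^ (l + 1) else 0)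
          + if c L then ((q : ℤ) ^ 2) ^ (L + 1) else 0 := by
        intro c
        unfold xc
        rw [Finset.sum_range_succ]
        simp only [pow_mul]
      have ey : ∀ c : ℕ → Bool, yc q (L + 1) c = (∑ l ∈ Finset.range L, if c l then (q : ℤ) ^ (l + 1) else 0)
          + if c L then (q : ℤ) ^ (L + 1) else 0 := by
        intro c
        unfold yc
        rw [Finset.sum_range_succ]
      rw [ex, ex, ey, ey, pow_mul]
      exact ⟨hx.1, hx.2, hy.1, hy.2⟩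

/-- the two planar points have distance in `u + [δ, 1 - δ]` for an integer `u`. -/
theorem plane_dist (δ : ℝ) (h0 : 0 < δ) (h1 : δ < 1 / 2) : ∃ q : ℕ, 2 ≤ q ∧
    ∀ (L : ℕ) (b b' : ℕ → Bool), (∃ l < L, b l ≠ b' l) → ∃ u : ℤ,
      (u : ℝ) + δ ≤ √(((xc q L b - xc q L b' : ℤ) : ℝ) ^ 2 + ((yc q L b - yc q L b' : ℤ) : ℝ) ^ 2) ∧
      √(((xc q L b - xc q L b' : ℤ) : ℝ) ^ 2 + ((yc q L b - yc q L b' : ℤ) : ℝ) ^ 2) ≤
        (u : ℝ) + (1 - δ) := by
  set η : ℝ := (1 - 2 * δ) / 4 with hη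
  have hη0 : 0 < η := by rw [hη]; linarith
  have hη1 : η < 1 / 4 := by rw [hη]; linarith
  obtain ⟨q, hq⟩ := exists_nat_gt (4 / η + 2)
  have hq2 : (2 : ℝ) < q := by
    have : 0 < 4 / η := by positivity
    linarith
  have hq2' : 2 ≤ q := by
    have : (2 : ℝ) ≤ q := hq2.le
    exact_mod_cast this
  have hqη : 4 ≤ η * (q - 1) := by
    have : 4 / η < q - 2 := by linarith
    rw [div_lt_iff₀ hη0] at this
    nlinarith
  have hqη2 : 4 ≤ η * ((q : ℝ) ^ 2 - 1) := by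
    have : (q : ℝ) - 1 ≤ (q : ℝ) ^ 2 - 1 := by nlinarith
    nlinarith
  refine ⟨q, hq2', fun L b b' hbb => ?_⟩
  obtain ⟨l, hl1, -, hx1, hx2, hy1, hy2⟩ := exists_scale q hq2' L b b' hbb
  set X : ℤ := xc q L b - xc q L b' with hX
  set Y : ℤ := yc q L b - yc q L b' with hY
  have hx1' : (|(X : ℝ)| - (q : ℝ) ^ (2 * l)) * ((q : ℝ) ^ 2 - 1) ≤ (q : ℝ) ^ (2 * l) := by
    exact_mod_cast hx1
  have hx2' : ((q : ℝ) ^ (2 * l) - |(X : ℝ)|) * ((q : ℝ) ^ 2 - 1) ≤ (q : ℝ) ^ (2 * l) := by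
    exact_mod_cast hx2
  have hy1' : (|(Y : ℝ)| - (q : ℝ) ^ l) * ((q : ℝ) - 1) ≤ (q : ℝ) ^ l := by
    exact_mod_cast hy1
  have hy2' : ((q : ℝ) ^ l - |(Y : ℝ)|) * ((q : ℝ) - 1) ≤ (q : ℝ) ^ l := by
    exact_mod_cast hy2
  set s : ℝ := (q : ℝ) ^ l with hs
  have hss : (q : ℝ) ^ (2 * l) = s ^ 2 := by rw [hs, mul_comm, pow_mul]
  rw [hss] at hx1' hx2'
  have hspos : 0 < s := by positivity
  have hsq : (q : ℝ) ≤ s := by
    rw [hs]
    calc (q : ℝ) = (q : ℝ) ^ 1 := (pow_one _).symm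
      _ ≤ (q : ℝ) ^ l := pow_le_pow_right₀ (by linarith) hl1
  -- bounds with η
  have hq1 : 0 < (q : ℝ) - 1 := by linarith
  have hqq1 : 0 < (q : ℝ) ^ 2 - 1 := by nlinarith
  have bx1 : |(X : ℝ)| ≤ (1 + η / 4) * s ^ 2 := by
    by_contra hcon
    push Not at hcon
    have h3 : η / 4 * s ^ 2 < |(X : ℝ)| - s ^ 2 := by nlinarith
    have h4 : η / 4 * s ^ 2 * ((q : ℝ) ^ 2 - 1) < (|(X : ℝ)| - s ^ 2) * ((q : ℝ) ^ 2 - 1) :=
      mul_lt_mul_of_pos_right h3 hqq1
    have h5 : s ^ 2 ≤ η / 4 * s ^ 2 * ((q : ℝ) ^ 2 - 1) := by nlinarith [sq_nonneg s]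
    linarith
  have bx2 : (1 - η / 4) * s ^ 2 ≤ |(X : ℝ)| := by
    by_contra hcon
    push Not at hcon
    have h3 : η / 4 * s ^ 2 < s ^ 2 - |(X : ℝ)| := by nlinarith
    have h4 : η / 4 * s ^ 2 * ((q : ℝ) ^ 2 - 1) < (s ^ 2 - |(X : ℝ)|) * ((q : ℝ) ^ 2 - 1) :=
      mul_lt_mul_of_pos_right h3 hqq1
    have h5 : s ^ 2 ≤ η / 4 * s ^ 2 * ((q : ℝ) ^ 2 - 1) := by nlinarith [sq_nonneg s]
    linarith
  have by1 : |(Y : ℝ)| ≤ (1 + η / 4) * s := by
    by_contra hcon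
    push Not at hcon
    have h3 : η / 4 * s < |(Y : ℝ)| - s := by nlinarith
    have h4 : η / 4 * s * ((q : ℝ) - 1) < (|(Y : ℝ)| - s) * ((q : ℝ) - 1) :=
      mul_lt_mul_of_pos_right h3 hq1
    have h5 : s ≤ η / 4 * s * ((q : ℝ) - 1) := by nlinarith
    linarith
  have by2 : (1 - η / 4) * s ≤ |(Y : ℝ)| := by
    by_contra hcon
    push Not at hcon
    have h3 : η / 4 * s < s - |(Y : ℝ)| := by nlinarith
    have h4 : η / 4 * s * ((q : ℝ) - 1) < (s - |(Y : ℝ)|) * ((q : ℝ) - 1) :=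
      mul_lt_mul_of_pos_right h3 hq1
    have h5 : s ≤ η / 4 * s * ((q : ℝ) - 1) := by nlinarith
    linarith
  refine ⟨|X|, ?_, ?_⟩
  · apply Real.le_sqrt_of_sq_le
    rw [← sq_abs (X : ℝ), ← sq_abs (Y : ℝ)]
    push_cast
    set u := |(X : ℝ)|
    set v := |(Y : ℝ)|
    have hv2 : ((1 - η / 4) * s) ^ 2 ≤ v ^ 2 := by
      apply pow_le_pow_left₀ _ by2
      apply mul_nonneg _ hspos.le; linarith
    have h3 : (1 - η) * u ≤ v ^ 2 := by
      calc (1 - η) * u ≤ (1 - η) * ((1 + η / 4) * s ^ 2) := by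
            apply mul_le_mul_of_nonneg_left bx1; linarith
        _ ≤ ((1 - η / 4) * s) ^ 2 := by
            have : (1 - η) * (1 + η / 4) ≤ (1 - η / 4) ^ 2 := by nlinarith
            calc _ = ((1 - η) * (1 + η / 4)) * s ^ 2 := by ring
              _ ≤ (1 - η / 4) ^ 2 * s ^ 2 := by gcongr
              _ = _ := by ring
        _ ≤ v ^ 2 := hv2
    have hu1 : 1 ≤ η * u := by
      have h4 : (q : ℝ) * 2 ≤ s ^ 2 := by nlinarith
      have h5 : (1 - η / 4) * (q * 2) ≤ u := by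
        refine le_trans ?_ bx2
        apply mul_le_mul_of_nonneg_left h4; linarith
      have h6 : (q : ℝ) ≤ u := by nlinarith
      nlinarith
    have hδη : 2 * δ = 1 - 4 * η := by rw [hη]; ring
    nlinarith
  · apply Real.sqrt_le_iff.2
    constructor
    · push_cast
      have : 0 ≤ |(X : ℝ)| := abs_nonneg _
      linarith
    rw [← sq_abs (X : ℝ), ← sq_abs (Y : ℝ)]
    push_cast
    set u := |(X : ℝ)|
    set v := |(Y : ℝ)|
    have hv0 : 0 ≤ v := abs_nonneg _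
    have hv2 : v ^ 2 ≤ ((1 + η / 4) * s) ^ 2 := pow_le_pow_left₀ hv0 by1 2
    have h3 : v ^ 2 ≤ (1 + 2 * η) * u := by
      calc v ^ 2 ≤ ((1 + η / 4) * s) ^ 2 := hv2
        _ = (1 + η / 4) ^ 2 * s ^ 2 := by ring
        _ ≤ ((1 + 2 * η) * (1 - η / 4)) * s ^ 2 := by
            have : (1 + η / 4) ^ 2 ≤ (1 + 2 * η) * (1 - η / 4) := by nlinarith
            gcongr
        _ = (1 + 2 * η) * ((1 - η / 4) * s ^ 2) := by ring
        _ ≤ (1 + 2 * η) * u := by
            apply mul_le_mul_of_nonneg_left bx2; linarith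
    have hδη : 2 * δ = 1 - 4 * η := by rw [hη]; ring
    have hu0 : 0 ≤ u := abs_nonneg _
    nlinarith [sq_nonneg (1 - δ)]

/-- size bounds -/
theorem xc_le (q L : ℕ) (hq : 2 ≤ q) (b : ℕ → Bool) : |(xc q L b : ℝ)| ≤ 2 * (q : ℝ) ^ (2 * L) := by
  have hq' : (2 : ℤ) ≤ (q : ℤ) := by exact_mod_cast hq
  have hq2 : (2 : ℤ) ≤ (q : ℤ) ^ 2 := by nlinarith
  have h := digit_diff ((q : ℤ) ^ 2) hq2 L b (fun _ => false)
  have ex : xc q L b = (∑ l ∈ Finset.range L, if b l then ((q : ℤ) ^ 2) ^ (l + 1) else 0) := by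
    unfold xc
    simp only [pow_mul]
  simp only [Bool.false_eq_true, if_false, Finset.sum_const_zero, sub_zero] at h
  rw [← ex] at h
  have h2 : |xc q L b| ≤ 2 * (q : ℤ) ^ (2 * L) := by
    rw [pow_mul]
    have hP : 0 < ((q : ℤ) ^ 2) ^ L := by positivity
    have h3 : ((q : ℤ) ^ 2) ^ (L + 1) = ((q : ℤ) ^ 2) ^ L * (q : ℤ) ^ 2 := pow_succ _ _
    rw [h3] at h
    by_contra hcon
    push Not at hcon
    nlinarith
  exact_mod_cast h2

theorem yc_le (q L : ℕ) (hq : 2 ≤ q) (b : ℕ → Bool) : |(yc q L b : ℝ)| ≤ 2 * (q : ℝ) ^ (2 * L) := by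
  have hq' : (2 : ℤ) ≤ (q : ℤ) := by exact_mod_cast hq
  have h := digit_diff (q : ℤ) hq' L b (fun _ => false)
  have ex : yc q L b = (∑ l ∈ Finset.range L, if b l then (q : ℤ) ^ (l + 1) else 0) := rfl
  simp only [Bool.false_eq_true, if_false, Finset.sum_const_zero, sub_zero] at h
  rw [← ex] at h
  have h2 : |yc q L b| ≤ 2 * (q : ℤ) ^ (2 * L) := by
    have hP : 0 < (q : ℤ) ^ L := by positivity
    have hP1 : 1 ≤ (q : ℤ) ^ L := hP
    have h3 : (q : ℤ) ^ (L + 1) = (q : ℤ) ^ L * (q : ℤ) := pow_succ _ _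
    rw [h3] at h
    have h4 : |yc q L b| ≤ 2 * (q : ℤ) ^ L := by
      by_contra hcon
      push Not at hcon
      nlinarith
    have h5 : (q : ℤ) ^ L ≤ (q : ℤ) ^ (2 * L) := by
      rw [mul_comm, pow_mul]; nlinarith
    linarith
  exact_mod_cast h2

end Q143.NI
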