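import Mathlib
import Pool.Agent.Q143.NI.Plane
import Pool.Agent.Q143.NI.Defs

/-!
# Near-integer distance avoiding sets: the product norm and the counting
-/

set_option autoImplicit false

namespace Q143.NI

open Filter


theorem le_distInt {t δ : ℝ} {u : ℤ} (h1 : (u : ℝ) + δ ≤ t) (h2 : t ≤ u + (1 - δ)) :
    δ ≤ distInt t := by
  unfold distInt
  rcases le_or_gt (round t) u with h | h
  · have : (round t : ℝ) ≤ u := by exact_mod_cast h
    have : δ ≤ t - round t := by linarith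
    exact this.trans (le_abs_self _)
  · have h3 : u + 1 ≤ round t := h
    have : (u : ℝ) + 1 ≤ round t := by exact_mod_cast h3
    have : δ ≤ -(t - round t) := by linarith
    exact this.trans (neg_le_abs _)


theorem distInt_le_self {t : ℝ} (ht : 0 ≤ t) : distInt t ≤ t := by
  unfold distInt
  have := round_le t 0
  simpa [abs_of_nonneg ht] using this

theorem seminorm_le {d : ℕ} (N : Seminorm ℝ (Fin d → ℝ)) : ∃ C : ℝ, 0 < C ∧ ∀ x, N x ≤ C * ‖x‖ := by
  refine ⟨∑ i, N (Pi.single i 1) + 1, by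
    have : 0 ≤ ∑ i, N (Pi.single i (1 : ℝ)) := Finset.sum_nonneg fun i _ => apply_nonneg N _
    linarith, fun x => ?_⟩
  have h1 : x = ∑ i, x i • (Pi.single i (1 : ℝ) : Fin d → ℝ) := by
    ext j
    simp [Finset.sum_apply, Pi.single_apply]
  have h2 : N x ≤ ∑ i, ‖x‖ * N (Pi.single i 1) := by
    calc N x = N (∑ i, x i • (Pi.single i (1 : ℝ) : Fin d → ℝ)) := by rw [← h1]
      _ ≤ ∑ i, N (x i • (Pi.single i (1 : ℝ) : Fin d → ℝ)) :=
          Finset.le_sum_of_subadditive N (map_zero N).le (map_add_le_add N) _ _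
      _ ≤ ∑ i, ‖x‖ * N (Pi.single i 1) := by
          refine Finset.sum_le_sum fun i _ => ?_
          rw [map_smul_eq_mul]
          exact mul_le_mul_of_nonneg_right (norm_le_pi_norm x i) (apply_nonneg N _)
  rw [← Finset.mul_sum] at h2
  nlinarith [norm_nonneg x]

theorem seminorm_continuous {d : ℕ} (N : Seminorm ℝ (Fin d → ℝ)) : Continuous N := by
  obtain ⟨C, hC, h⟩ := seminorm_le N
  have : LipschitzWith ⟨C, hC.le⟩ N := by
    refine LipschitzWith.of_dist_le_mul fun x y => ?_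
    rw [Real.dist_eq, dist_eq_norm]
    refine (abs_sub_map_le_sub N x y).trans ?_
    exact h (x - y)
  exact this.continuous

theorem seminorm_ge {d : ℕ} (N : Seminorm ℝ (Fin d → ℝ)) (hN : ∀ x, N x = 0 → x = 0) :
    ∃ m : ℝ, 0 < m ∧ ∀ x, m * ‖x‖ ≤ N x := by
  by_cases hd : (Metric.sphere (0 : Fin d → ℝ) 1).Nonempty
  · obtain ⟨z, hz, hmin⟩ := (isCompact_sphere (0 : Fin d → ℝ) 1).exists_isMinOn hd
      (seminorm_continuous N).continuousOn
    have hz1 : ‖z‖ = 1 := by simpa using hz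
    have hz0 : 0 < N z := by
      refine lt_of_le_of_ne (apply_nonneg N z) fun h => ?_
      have := hN z h.symm
      rw [this] at hz1
      simp at hz1
    refine ⟨N z, hz0, fun x => ?_⟩
    by_cases hx : x = 0
    · simp [hx]
    · have hx' : 0 < ‖x‖ := norm_pos_iff.2 hx
      have h1 : (‖x‖)⁻¹ • x ∈ Metric.sphere (0 : Fin d → ℝ) 1 := by
        simp [norm_smul, hx'.ne']
      have h2 : N z ≤ N ((‖x‖)⁻¹ • x) := hmin h1
      rw [map_smul_eq_mul, norm_inv, norm_norm] at h2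
      rw [le_inv_mul_iff₀ hx'] at h2
      linarith
  · refine ⟨1, one_pos, fun x => ?_⟩
    have hx : x = 0 := by
      by_contra hx
      apply hd
      refine ⟨(‖x‖)⁻¹ • x, ?_⟩
      have hx' : 0 < ‖x‖ := norm_pos_iff.2 hx
      simp [norm_smul, hx'.ne']
    simp [hx]

/-- The set of admissible sizes is bounded, so `maxPoints` is a maximum. -/
theorem bddAbove {d : ℕ} (N : Seminorm ℝ (Fin d → ℝ)) (hN : ∀ x, N x = 0 → x = 0) (δ X : ℝ)
    (hδ : 0 < δ) : BddAbove {n : ℕ | ∃ p : Fin n → Fin d → ℝ, Admissible N δ X p} := by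
  obtain ⟨C, hC, hC'⟩ := seminorm_le N
  obtain ⟨m, hm, hm'⟩ := seminorm_ge N hN
  have hcomp : IsCompact (Metric.closedBall (0 : Fin d → ℝ) (X / m)) := isCompact_closedBall _ _
  have he : 0 < δ / (4 * C) := by positivity
  obtain ⟨T, -, hTfin, hT⟩ := hcomp.finite_cover_balls he
  refine ⟨hTfin.toFinset.card, ?_⟩
  rintro n ⟨p, ⟨c, hc⟩, hp⟩
  have hmem : ∀ i, ∃ t ∈ hTfin.toFinset, dist (p i - c) t < δ / (4 * C) := by
    intro i
    have h1 : p i - c ∈ Metric.closedBall (0 : Fin d → ℝ) (X / m) := by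
      rw [mem_closedBall_zero_iff, le_div_iff₀ hm]
      have := hm' (p i - c)
      linarith [hc i]
    have := hT h1
    simp only [Set.mem_iUnion, Metric.mem_ball] at this
    obtain ⟨t, ht, h⟩ := this
    exact ⟨t, hTfin.mem_toFinset.2 ht, h⟩
  choose t ht hdt using hmem
  have hinj : Function.Injective t := by
    intro i j hij
    by_contra hne
    have h1 := hp i j hne
    have h2 : N (p i - p j) ≤ C * ‖p i - p j‖ := hC' _
    have h3 : ‖p i - p j‖ ≤ δ / (2 * C) := by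
      have e : p i - p j = (p i - c) - (p j - c) := by abel
      rw [e, ← dist_eq_norm]
      calc dist (p i - c) (p j - c) ≤ dist (p i - c) (t i) + dist (t i) (p j - c) :=
            dist_triangle _ _ _
        _ ≤ δ / (4 * C) + δ / (4 * C) := by
            refine add_le_add (hdt i).le ?_
            rw [hij, dist_comm]
            exact (hdt j).le
        _ = δ / (2 * C) := by field_simp; ring
    have h4 : distInt (N (p i - p j)) ≤ N (p i - p j) := distInt_le_self (apply_nonneg N _)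
    have h5 : C * ‖p i - p j‖ ≤ δ / 2 := by
      calc C * ‖p i - p j‖ ≤ C * (δ / (2 * C)) := by gcongr
        _ = δ / 2 := by field_simp
    linarith
  have := Finset.card_le_card_of_injOn (s := Finset.univ) (t := hTfin.toFinset) t
    (fun i _ => ht i) (fun i _ j _ h => hinj h)
  simpa using this

/-- the projection of `ℝ ^ (2 k)` to the `i`-th coordinate plane. -/
noncomputable def proj (k : ℕ) (i : Fin k) : (Fin (k * 2) → ℝ) →ₗ[ℝ] EuclideanSpace ℝ (Fin 2) :=
  (WithLp.linearEquiv 2 ℝ (Fin 2 → ℝ)).symm.toLinearMap ∘ₗ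
    (LinearMap.pi fun j => LinearMap.proj (finProdFinEquiv (i, j)))

/-- The maximum of the Euclidean norms in the `k` coordinate planes of `ℝ ^ (2 k)`. -/
noncomputable def planeNorm (k : ℕ) : Seminorm ℝ (Fin (k * 2) → ℝ) :=
  Finset.univ.sup fun i : Fin k => (normSeminorm ℝ (EuclideanSpace ℝ (Fin 2))).comp (proj k i)

theorem proj_apply (k : ℕ) (i : Fin k) (x : Fin (k * 2) → ℝ) (j : Fin 2) :
    proj k i x j = x (finProdFinEquiv (i, j)) := rfl

theorem norm_proj (k : ℕ) (i : Fin k) (x : Fin (k * 2) → ℝ) :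
    ‖proj k i x‖ = √(x (finProdFinEquiv (i, 0)) ^ 2 + x (finProdFinEquiv (i, 1)) ^ 2) := by
  rw [EuclideanSpace.norm_eq, Fin.sum_univ_two, Real.norm_eq_abs, Real.norm_eq_abs, sq_abs, sq_abs,
    proj_apply, proj_apply]

theorem planeNorm_le {k : ℕ} {x : Fin (k * 2) → ℝ} {a : ℝ} (ha : 0 ≤ a)
    (h : ∀ i, ‖proj k i x‖ ≤ a) : planeNorm k x ≤ a :=
  Seminorm.finset_sup_apply_le ha fun i _ => h i

theorem le_planeNorm {k : ℕ} (x : Fin (k * 2) → ℝ) (i : Fin k) : ‖proj k i x‖ ≤ planeNorm k x := by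
  have := Seminorm.le_finset_sup_apply (p := fun i : Fin k =>
    (normSeminorm ℝ (EuclideanSpace ℝ (Fin 2))).comp (proj k i)) (s := Finset.univ) (x := x)
    (Finset.mem_univ i)
  exact this

theorem planeNorm_isNorm (k : ℕ) (x : Fin (k * 2) → ℝ) (h : planeNorm k x = 0) : x = 0 := by
  ext j
  obtain ⟨⟨i, a⟩, rfl⟩ := finProdFinEquiv.surjective j
  have h1 : ‖proj k i x‖ ≤ 0 := (le_planeNorm x i).trans h.le
  have h2 : proj k i x = 0 := norm_le_zero_iff.1 h1
  have h3 := congrArg (fun v : EuclideanSpace ℝ (Fin 2) => v a) h2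
  simpa [proj_apply] using h3

theorem planeNorm_eq {k : ℕ} (hk : 0 < k) (x : Fin (k * 2) → ℝ) :
    ∃ i, planeNorm k x = ‖proj k i x‖ := by
  have : Nonempty (Fin k) := ⟨⟨0, hk⟩⟩
  obtain ⟨i, -, hi⟩ := Seminorm.exists_apply_eq_finset_sup (p := fun i : Fin k =>
    (normSeminorm ℝ (EuclideanSpace ℝ (Fin 2))).comp (proj k i)) (s := Finset.univ)
    Finset.univ_nonempty x
  exact ⟨i, hi⟩

/-- the digit string of a subset of `Fin L` -/
def dig {L : ℕ} (S : Fin L → Bool) : ℕ → Bool := fun l => if h : l < L then S ⟨l, h⟩ else false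

theorem dig_ne {L : ℕ} {S T : Fin L → Bool} (h : S ≠ T) : ∃ l < L, dig S l ≠ dig T l := by
  obtain ⟨l, hl⟩ := Function.ne_iff.1 h
  exact ⟨l, l.2, by simpa [dig] using hl⟩

/-- the points of `ℝ ^ (2 k)` -/
noncomputable def pt (q k L : ℕ) (S : Fin k → Fin L → Bool) : Fin (k * 2) → ℝ := fun j =>
  if (finProdFinEquiv.symm j).2 = 0 then (xc q L (dig (S (finProdFinEquiv.symm j).1)) : ℝ)
  else (yc q L (dig (S (finProdFinEquiv.symm j).1)) : ℝ)

theorem norm_proj_pt (q k L : ℕ) (S : Fin k → Fin L → Bool) (i : Fin k) :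
    ‖proj k i (pt q k L S)‖ = √((xc q L (dig (S i)) : ℝ) ^ 2 + (yc q L (dig (S i)) : ℝ) ^ 2) := by
  rw [norm_proj]
  simp [pt]

theorem norm_proj_pt_sub (q k L : ℕ) (S T : Fin k → Fin L → Bool) (i : Fin k) :
    ‖proj k i (pt q k L S - pt q k L T)‖ =
      √(((xc q L (dig (S i)) - xc q L (dig (T i)) : ℤ) : ℝ) ^ 2 +
        ((yc q L (dig (S i)) - yc q L (dig (T i)) : ℤ) : ℝ) ^ 2) := by
  rw [norm_proj]
  simp [pt]

/-- The lower bound: `2 ^ (L k)` points in a ball of radius `4 q ^ (2 L)`. -/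
theorem lower (δ : ℝ) (h0 : 0 < δ) (h1 : δ < 1 / 2) : ∃ q : ℕ, 2 ≤ q ∧ ∀ (k L : ℕ) (X : ℝ), 0 < k →
    4 * (q : ℝ) ^ (2 * L) ≤ X → 2 ^ (L * k) ≤ maxPoints (planeNorm k) δ X := by
  obtain ⟨q, hq, h⟩ := plane_dist δ h0 h1
  refine ⟨q, hq, fun k L X hk hX => ?_⟩
  have hcard : Fintype.card (Fin k → Fin L → Bool) = 2 ^ (L * k) := by
    simp [pow_mul]
  let e : Fin (2 ^ (L * k)) ≃ (Fin k → Fin L → Bool) := (Fintype.equivFinOfCardEq hcard).symm
  refine le_csSup (bddAbove _ (planeNorm_isNorm k) δ X h0) ⟨fun n => pt q k L (e n), ⟨0, fun n => ?_⟩, ?_⟩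
  · rw [sub_zero]
    refine le_trans (planeNorm_le (by positivity) fun i => ?_) hX
    rw [norm_proj_pt]
    apply Real.sqrt_le_iff.2
    refine ⟨by positivity, ?_⟩
    have hx := xc_le q L hq (dig (e n i))
    have hy := yc_le q L hq (dig (e n i))
    have hx2 := pow_le_pow_left₀ (abs_nonneg _) hx 2
    have hy2 := pow_le_pow_left₀ (abs_nonneg _) hy 2
    rw [sq_abs] at hx2 hy2
    nlinarith
  · intro a b hab
    have hne : e a ≠ e b := fun h => hab (e.injective h)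
    obtain ⟨i, hi⟩ := planeNorm_eq hk (pt q k L (e a) - pt q k L (e b))
    rw [hi]
    by_cases hSi : e a i = e b i
    · exfalso
      have hz : planeNorm k (pt q k L (e a) - pt q k L (e b)) ≤ 0 := by
        rw [hi, norm_proj_pt_sub, hSi]
        simp
      obtain ⟨i', hi'⟩ := Function.ne_iff.1 hne
      obtain ⟨u, hu1, hu2⟩ := h L (dig (e a i')) (dig (e b i')) (dig_ne hi')
      rw [← norm_proj_pt_sub] at hu1 hu2
      have h3 := (le_planeNorm (pt q k L (e a) - pt q k L (e b)) i').trans hz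
      have h4 := norm_nonneg (proj k i' (pt q k L (e a) - pt q k L (e b)))
      have h5 : ‖proj k i' (pt q k L (e a) - pt q k L (e b))‖ = 0 := le_antisymm h3 h4
      rw [h5] at hu1 hu2
      have h6 : (u : ℝ) < 0 := by linarith
      have h7 : (-1 : ℝ) < u := by linarith
      have h6' : u < 0 := by exact_mod_cast h6
      have h7' : -1 < u := by exact_mod_cast h7
      omega
    · obtain ⟨u, hu1, hu2⟩ := h L (dig (e a i)) (dig (e b i)) (dig_ne hSi)
      rw [← norm_proj_pt_sub] at hu1 hu2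
      exact le_distInt hu1 hu2

/-- Growth faster than any power. -/
theorem growth (δ : ℝ) (h0 : 0 < δ) (h1 : δ < 1 / 2) (A : ℕ) : ∃ k : ℕ, 0 < k ∧
    Tendsto (fun X : ℝ => (maxPoints (planeNorm k) δ X : ℝ) / X ^ A) atTop atTop := by
  obtain ⟨q, hq, h⟩ := lower δ h0 h1
  have hqr : (2 : ℝ) ≤ q := by exact_mod_cast hq
  have hQ1 : (1 : ℝ) < (q : ℝ) ^ 2 := by nlinarith
  obtain ⟨k, hk⟩ := pow_unbounded_of_one_lt (((q : ℝ) ^ 2) ^ (A + 1)) (by norm_num : (1 : ℝ) < 2)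
  have hk0 : 0 < k := by
    rcases Nat.eq_zero_or_pos k with h | h
    · subst h
      have : (1 : ℝ) ≤ ((q : ℝ) ^ 2) ^ (A + 1) := one_le_pow₀ hQ1.le
      simp at hk; linarith
    · exact h
  refine ⟨k, hk0, ?_⟩
  set c : ℝ := 1 / (4 * (q : ℝ) ^ 2) ^ (A + 1) with hc
  have hc0 : 0 < c := by positivity
  refine tendsto_atTop_mono' atTop ?_ (tendsto_id.const_mul_atTop hc0)
  filter_upwards [eventually_ge_atTop 4] with X hX
  obtain ⟨L, hL1, hL2⟩ := exists_nat_pow_near (show (1 : ℝ) ≤ X / 4 by linarith) hQ1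
  have hX0 : 0 < X := by linarith
  have h2 : 4 * (q : ℝ) ^ (2 * L) ≤ X := by rw [pow_mul]; linarith
  have h3 := h k L X hk0 h2
  have h3' : (2 : ℝ) ^ (L * k) ≤ maxPoints (planeNorm k) δ X := by exact_mod_cast h3
  have hX2 : X < 4 * (q : ℝ) ^ 2 * ((q : ℝ) ^ 2) ^ L := by
    rw [pow_succ] at hL2; nlinarith
  have h4 : (((q : ℝ) ^ 2) ^ L) ^ (A + 1) ≤ (2 : ℝ) ^ (L * k) := by
    calc (((q : ℝ) ^ 2) ^ L) ^ (A + 1) = (((q : ℝ) ^ 2) ^ (A + 1)) ^ L := pow_right_comm _ _ _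
      _ ≤ ((2 : ℝ) ^ k) ^ L := pow_le_pow_left₀ (by positivity) hk.le L
      _ = (2 : ℝ) ^ (L * k) := by rw [← pow_mul, mul_comm]
  have h5 : X ^ (A + 1) ≤ (4 * (q : ℝ) ^ 2) ^ (A + 1) * (((q : ℝ) ^ 2) ^ L) ^ (A + 1) := by
    rw [← mul_pow]
    exact pow_le_pow_left₀ hX0.le hX2.le _
  rw [le_div_iff₀ (by positivity)]
  simp only [id]
  calc c * X * X ^ A = c * X ^ (A + 1) := by ring
    _ ≤ c * ((4 * (q : ℝ) ^ 2) ^ (A + 1) * (((q : ℝ) ^ 2) ^ L) ^ (A + 1)) := by gcongr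
    _ = (((q : ℝ) ^ 2) ^ L) ^ (A + 1) := by rw [hc]; field_simp
    _ ≤ _ := h4.trans h3'

end Q143.NI
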